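import Pool.Agent.H.MP_8f2c22_lc.C

set_option autoImplicit false

namespace Pool.Agent.Results.MP_8f2c22_lc.Poly

open Pool.Agent.Lib.CX Pool.Agent.H.MP_8f2c22_lc

theorem result : InP fun a : {a : Gr // ¬ K5Minor a.G} => IsCliqueGraph a.1.G := main

end Pool.Agent.Results.MP_8f2c22_lc.Poly
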